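import Pool.Agent.Lib.MP_d610d0_nt.CH.F.Stm

set_option autoImplicit false

namespace Pool.Agent.CH.F

open Finset
open scoped ArithmeticFunction.Omega
open Pool.Agent.MP89da58 (tri)

theorem cf_rr_nonneg (z : ℝ) (k n : ℕ) : 0 ≤ Rk z k n := by
  unfold Rk
  positivity

theorem cf_rr_rough (z : ℝ) (k n : ℕ) (h : Rk z k n ≠ 0) : Rough z n := by
  have hne : ((Fintype.piFinset (fun _ : Fin k => (range (n + 1)).filter
    (fun p : ℕ => p.Prime ∧ z ≤ p))).filter (fun q => ∏ i, q i = n)).Nonempty := by
    rw [Finset.nonempty_iff_ne_empty]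
    intro he
    apply h
    unfold Rk
    rw [he]
    simp
  obtain ⟨q, hq⟩ := hne
  rw [Finset.mem_filter, Fintype.mem_piFinset] at hq
  obtain ⟨hq1, hq2⟩ := hq
  intro p hp hpn
  rw [← hq2] at hpn
  obtain ⟨i, -, hi⟩ := (Prime.dvd_finsetProd_iff hp.prime _).1 hpn
  have h3 := hq1 i
  rw [Finset.mem_filter] at h3
  have he : p = q i := (Nat.prime_dvd_prime_iff_eq hp h3.2.1).1 hi
  rw [he]
  exact h3.2.2

theorem cf_rr_get (l : List ℕ) : ∏ i : Fin l.length, l.get i = l.prod :=
  Fin.prod_univ_getElem l

theorem cf_rr_perm (z : ℝ) (n : ℕ) (hn : n ≠ 0) (hs : Squarefree n) (hr : Rough z n) :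
    1 ≤ Rk z (n.primeFactorsList.length) n := by
  have hnd : n.primeFactorsList.Nodup := (Nat.squarefree_iff_nodup_primeFactorsList hn).1 hs
  have hc : (n.primeFactorsList.length).factorial ≤
      ((Fintype.piFinset (fun _ : Fin (n.primeFactorsList.length) => (range (n + 1)).filter
        (fun p : ℕ => p.Prime ∧ z ≤ p))).filter (fun q => ∏ i, q i = n)).card := by
    have h1 : (Finset.univ : Finset (Equiv.Perm (Fin n.primeFactorsList.length))).card
        = (n.primeFactorsList.length).factorial := by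
      rw [Finset.card_univ, Fintype.card_perm, Fintype.card_fin]
    rw [← h1]
    apply Finset.card_le_card_of_injOn (fun σ => fun i => n.primeFactorsList.get (σ i))
    · intro σ _
      rw [Finset.mem_coe, Finset.mem_filter, Fintype.mem_piFinset]
      refine ⟨fun i => ?_, ?_⟩
      · rw [Finset.mem_filter, Finset.mem_range]
        have hm : n.primeFactorsList.get (σ i) ∈ n.primeFactorsList := List.get_mem _ _
        have hp := Nat.prime_of_mem_primeFactorsList hm
        have hd := Nat.dvd_of_mem_primeFactorsList hm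
        exact ⟨Nat.lt_succ_of_le (Nat.le_of_dvd (Nat.pos_of_ne_zero hn) hd), hp, hr _ hp hd⟩
      · show ∏ i, n.primeFactorsList.get (σ i) = n
        rw [Equiv.prod_comp σ (fun i => n.primeFactorsList.get i), cf_rr_get,
          Nat.prod_primeFactorsList hn]
    · intro σ _ τ _ hst
      apply Equiv.ext
      intro i
      have h2 := congrFun hst i
      exact (List.nodup_iff_injective_get.1 hnd) h2
  unfold Rk
  rw [le_div_iff₀ (by positivity), one_mul]
  exact_mod_cast hc

theorem cf_rr_len (z : ℝ) (n : ℕ) (hz : 2 < z) (hn : n ≠ 0) (hr : Rough z n)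
    (hlt : (n : ℝ) < z ^ 8) : n.primeFactorsList.length ≤ 7 := by
  by_contra hcon
  push Not at hcon
  have h1 : z ^ (n.primeFactorsList.length) ≤ (n : ℝ) := by
    have h2 : (n : ℝ) = ∏ i : Fin n.primeFactorsList.length, ((n.primeFactorsList.get i : ℕ) : ℝ) := by
      rw [← Nat.cast_prod, cf_rr_get, Nat.prod_primeFactorsList hn]
    have h3 : ∏ _i : Fin n.primeFactorsList.length, z
        ≤ ∏ i : Fin n.primeFactorsList.length, ((n.primeFactorsList.get i : ℕ) : ℝ) := by
      apply Finset.prod_le_prod
      · intro i _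
        linarith
      · intro i _
        have hm : n.primeFactorsList.get i ∈ n.primeFactorsList := List.get_mem _ _
        exact hr _ (Nat.prime_of_mem_primeFactorsList hm) (Nat.dvd_of_mem_primeFactorsList hm)
    rw [Finset.prod_const, Finset.card_univ, Fintype.card_fin] at h3
    rw [← h2] at h3
    exact h3
  have h4 : z ^ 8 ≤ z ^ (n.primeFactorsList.length) :=
    pow_le_pow_right₀ (by linarith) (by omega)
  linarith

theorem p_rr : S_rr := by
  intro z n hz hn
  have hn0 : n ≠ 0 := by omega
  refine ⟨?_, ?_, ?_⟩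
  · exact Finset.sum_nonneg (fun k _ => cf_rr_nonneg z k n)
  · intro h
    obtain ⟨k, -, hk⟩ := Finset.exists_ne_zero_of_sum_ne_zero h
    exact cf_rr_rough z k n hk
  · intro hs hr hlt ho
    rw [ArithmeticFunction.cardFactors_apply] at ho
    have h7 := cf_rr_len z n hz hn0 hr hlt
    have h1 := cf_rr_perm z n hn0 hs hr
    refine h1.trans ?_
    exact Finset.single_le_sum (f := fun k => Rk z k n) (fun k _ => cf_rr_nonneg z k n)
      (Finset.mem_Icc.2 ⟨ho, h7⟩)

end Pool.Agent.CH.F
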