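import Pool.Agent.Lib.MP_d610d0_nt.CH.F.Stm

set_option autoImplicit false

/-!
Piece win: the windows.
-/

namespace Pool.Agent.CH.F

open Finset
open scoped ArithmeticFunction.Omega
open Pool.Agent.MP89da58 (tri)

private theorem cf_win_nonneg (u : ℝ) : 0 ≤ tri u := le_max_left _ _

private theorem cf_win_le_one (u : ℝ) : tri u ≤ 1 :=
  max_le zero_le_one (by linarith [abs_nonneg u])

private theorem cf_win_lip (u v : ℝ) : tri u ≤ tri v + |u - v| := by
  unfold tri
  have h := abs_sub_abs_le_abs_sub v u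
  rw [abs_sub_comm] at h
  have h0 := abs_nonneg (u - v)
  refine max_le ?_ ?_
  · have := le_max_left 0 (1 - |v|)
    linarith
  · have := le_max_right 0 (1 - |v|)
    linarith

private theorem cf_win_abs {u : ℝ} (h : tri u ≠ 0) : |u| < 1 := by
  by_contra hc
  push Not at hc
  exact h (max_eq_left (by linarith))

private theorem cf_win_main (J j n : ℕ) (hJ : 5 ≤ J) (hj1 : J < j) (hj2 : j ≤ 2 * J)
    (hn : 1 ≤ n) (h : wJ J j n ≠ 0) : j ^ 3 < n ∧ n + 2 < (j + 1) ^ 3 := by
  have h1 := cf_win_abs h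
  have hJr : (5 : ℝ) ≤ J := by exact_mod_cast hJ
  have hj6 : (6 : ℝ) ≤ j := by
    have : 6 ≤ j := by omega
    exact_mod_cast this
  have hj2r : (j : ℝ) ≤ 2 * J := by exact_mod_cast hj2
  have hnr : (1 : ℝ) ≤ n := by exact_mod_cast hn
  set x : ℝ := ((j : ℝ) + 1 / 2) ^ 3 with hx
  have hx0 : 0 < x := by positivity
  have hJ0 : (0 : ℝ) < 2 * J := by linarith
  rw [abs_mul, abs_of_pos hJ0] at h1
  have h2 : |Real.log (n / x)| < 1 / (2 * J) := by
    rw [lt_div_iff₀ hJ0]
    linarith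
  obtain ⟨h3, h4⟩ := abs_lt.1 h2
  have hnx : 0 < (n : ℝ) / x := by positivity
  -- comparison of `1/(2J)` with `1/j`
  have hj0 : (0 : ℝ) < j := by linarith
  have h5 : 1 / (2 * (J : ℝ)) ≤ 1 / j := one_div_le_one_div_of_le hj0 hj2r
  have h6 : (0 : ℝ) < 1 - 1 / j := by
    rw [sub_pos, div_lt_one hj0]
    linarith
  have hexp1 : 1 - 1 / (j : ℝ) ≤ Real.exp (-(1 / j)) := by
    have := Real.add_one_le_exp (-(1 / (j : ℝ)))
    linarith
  constructor
  · -- lower end
    have h7 : Real.exp (-(1 / (j : ℝ))) < n / x := by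
      rw [← Real.lt_log_iff_exp_lt hnx]
      linarith
    have h8 : (1 - 1 / (j : ℝ)) * x < n := by
      have := lt_of_le_of_lt hexp1 h7
      rwa [lt_div_iff₀ hx0] at this
    have h9 : (j : ℝ) ^ 3 < n := by
      refine lt_of_le_of_lt ?_ h8
      have h10 : (1 - 1 / (j : ℝ)) * x * j = (j - 1) * x := by
        field_simp
      have h11 : (j : ℝ) ^ 3 * j ≤ (j - 1) * x := by
        rw [hx]
        nlinarith [mul_nonneg (mul_nonneg hj0.le hj0.le) (show (0 : ℝ) ≤ j - 6 by linarith),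
          mul_nonneg hj0.le (show (0 : ℝ) ≤ j - 6 by linarith)]
      rw [← h10] at h11
      exact le_of_mul_le_mul_right h11 hj0
    exact_mod_cast h9
  · have h7 : (n : ℝ) / x < Real.exp (1 / (j : ℝ)) := by
      rw [← Real.log_lt_iff_lt_exp hnx]
      linarith
    have h8 : (n : ℝ) * (1 - 1 / j) < x := by
      have e1 : (n : ℝ) / x * Real.exp (-(1 / j)) < 1 := by
        have := mul_lt_mul_of_pos_right h7 (Real.exp_pos (-(1 / (j : ℝ))))
        rwa [← Real.exp_add, add_neg_cancel, Real.exp_zero] at this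
      have e2 : (n : ℝ) / x * (1 - 1 / j) < 1 :=
        lt_of_le_of_lt (mul_le_mul_of_nonneg_left hexp1 hnx.le) e1
      rw [div_mul_eq_mul_div, div_lt_one hx0] at e2
      exact e2
    have h9 : (n : ℝ) + 2 < (j + 1) ^ 3 := by
      have h10 : (n : ℝ) * (j - 1) < x * j := by
        have e3 : (n : ℝ) * (j - 1) = n * (1 - 1 / j) * j := by
          field_simp
        rw [e3]
        exact mul_lt_mul_of_pos_right h8 hj0
      have h11 : x * j + 2 * (j - 1) ≤ ((j : ℝ) + 1) ^ 3 * (j - 1) := by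
        rw [hx]
        nlinarith [mul_nonneg (mul_nonneg hj0.le hj0.le) (show (0 : ℝ) ≤ j - 6 by linarith),
          mul_nonneg hj0.le (show (0 : ℝ) ≤ j - 6 by linarith)]
      have h12 : ((n : ℝ) + 2) * (j - 1) < ((j : ℝ) + 1) ^ 3 * (j - 1) := by linarith
      exact lt_of_mul_lt_mul_right h12 (by linarith)
    exact_mod_cast h9

theorem p_win : S_win := by
  intro J hJ j hj
  rw [mem_Ioc] at hj
  obtain ⟨hj1, hj2⟩ := hj
  refine ⟨fun n => ⟨cf_win_nonneg _, cf_win_le_one _⟩, ?_, ?_, ?_⟩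
  · intro n hn h
    obtain ⟨h1, h2⟩ := cf_win_main J j n hJ hj1 hj2 hn h
    refine ⟨h1, h2, ?_, ?_⟩
    · exact lt_of_le_of_lt (Nat.pow_le_pow_left hj1.le 3) h1
    · have h3 : (j + 1) ^ 3 ≤ (3 * J) ^ 3 := Nat.pow_le_pow_left (by omega) 3
      have h4 : (3 * J) ^ 3 = 27 * J ^ 3 := by ring
      omega
  · have hsub : (Icc 1 (27 * J ^ 3)).filter (fun n => wJ J j n ≠ 0) ⊆
        Ioo (j ^ 3) ((j + 1) ^ 3) := by
      intro n hn
      rw [mem_filter, mem_Icc] at hn
      obtain ⟨h1, h2⟩ := cf_win_main J j n hJ hj1 hj2 hn.1.1 hn.2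
      rw [mem_Ioo]
      omega
    have hc := card_le_card hsub
    rw [Nat.card_Ioo] at hc
    have h3 : (j + 1) ^ 3 - j ^ 3 - 1 ≤ 18 * J ^ 2 := by
      have e : (j + 1) ^ 3 = j ^ 3 + (3 * j ^ 2 + 3 * j + 1) := by ring
      rw [e, Nat.add_sub_cancel_left, Nat.add_sub_cancel]
      nlinarith
    have h4 := hc.trans h3
    exact_mod_cast h4
  · intro n hn
    have hJr : (5 : ℝ) ≤ J := by exact_mod_cast hJ
    have hJ3 : (0 : ℝ) < (J : ℝ) ^ 3 := by positivity
    have hnr : (J : ℝ) ^ 3 ≤ n := by exact_mod_cast hn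
    have hn0 : (0 : ℝ) < n := by linarith
    set x : ℝ := ((j : ℝ) + 1 / 2) ^ 3 with hx
    have hx0 : 0 < x := by positivity
    refine (cf_win_lip _ (2 * J * Real.log ((n + 2 : ℕ) / x))).trans ?_
    refine add_le_add_right ?_ _
    have e1 : 2 * (J : ℝ) * Real.log (n / x) - 2 * J * Real.log ((n + 2 : ℕ) / x) =
        -(2 * J * Real.log (1 + 2 / n)) := by
      have e2 : ((n + 2 : ℕ) : ℝ) / x = (n / x) * (1 + 2 / n) := by
        push_cast
        field_simp
      rw [e2, Real.log_mul (by positivity) (by positivity)]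
      ring
    rw [e1, abs_neg, abs_of_nonneg (by
      have : 0 ≤ Real.log (1 + 2 / n) := Real.log_nonneg (by
        have : (0 : ℝ) ≤ 2 / n := by positivity
        linarith)
      positivity)]
    have e3 : Real.log (1 + 2 / n) ≤ 2 / n := by
      have := Real.log_le_sub_one_of_pos (show (0 : ℝ) < 1 + 2 / n by positivity)
      linarith
    calc 2 * (J : ℝ) * Real.log (1 + 2 / n) ≤ 2 * J * (2 / n) :=
          mul_le_mul_of_nonneg_left e3 (by positivity)
      _ ≤ 2 * J * (2 / J ^ 3) := by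
          apply mul_le_mul_of_nonneg_left _ (by positivity)
          exact div_le_div_of_nonneg_left (by norm_num) hJ3 hnr
      _ = 4 / (J : ℝ) ^ 2 := by
          field_simp
          ring

end Pool.Agent.CH.F
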