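import Pool.Agent.Lib.MP_d610d0_nt.CH.F.Stm

set_option autoImplicit false

namespace Pool.Agent.CH.F

open Finset
open scoped ArithmeticFunction.Omega
open Pool.Agent.MP89da58 (tri)

theorem cf_dya_pow (A J N : ℕ) (hJ : Real.exp (4 * A + 1) ≤ J) (hN : 1 ≤ N) (hNJ : N ≤ 2 * J) :
    Real.log N ^ A ≤ 5 / 4 * Real.log J ^ A := by
  have hJpos : (0 : ℝ) < J := lt_of_lt_of_le (Real.exp_pos _) hJ
  have ht : (4 * A + 1 : ℝ) ≤ Real.log J := by
    rw [Real.le_log_iff_exp_le hJpos]
    exact hJ
  have hApos : (0 : ℝ) ≤ A := Nat.cast_nonneg A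
  have htpos : 0 < Real.log J := by linarith
  have h1 : Real.log N ≤ Real.log J * Real.exp (0.7 / Real.log J) := by
    have h0 : Real.log N ≤ Real.log 2 + Real.log J := by
      rw [← Real.log_mul (by norm_num) hJpos.ne']
      apply Real.log_le_log (by exact_mod_cast hN)
      exact_mod_cast hNJ
    have h2 := Real.add_one_le_exp (0.7 / Real.log J)
    have h3 : Real.log J * (0.7 / Real.log J + 1) ≤ Real.log J * Real.exp (0.7 / Real.log J) :=
      mul_le_mul_of_nonneg_left h2 htpos.le
    have h4 : Real.log J * (0.7 / Real.log J + 1) = 0.7 + Real.log J := by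
      field_simp
    have h5 := Real.log_two_lt_d9
    linarith
  have hexp : Real.exp (A * (0.7 / Real.log J)) ≤ 5 / 4 := by
    have h6 : A * (0.7 / Real.log J) ≤ 1 / 5 := by
      rw [← mul_div_assoc, div_le_iff₀ htpos]
      linarith
    have h7 : Real.exp (A * (0.7 / Real.log J)) ≤ Real.exp (1 / 5) := Real.exp_le_exp.2 h6
    have h8 : (1 : ℝ) - 1 / 5 ≤ Real.exp (-(1 / 5)) := Real.one_sub_le_exp_neg _
    have h9 : Real.exp (1 / 5) * Real.exp (-(1 / 5)) = 1 := by
      rw [← Real.exp_add]
      simp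
    have h10 := Real.exp_pos (1 / 5)
    nlinarith
  calc Real.log N ^ A ≤ (Real.log J * Real.exp (0.7 / Real.log J)) ^ A :=
        pow_le_pow_left₀ (Real.log_natCast_nonneg N) h1 A
    _ = Real.log J ^ A * Real.exp (A * (0.7 / Real.log J)) := by
        rw [mul_pow, ← Real.exp_nat_mul]
    _ ≤ Real.log J ^ A * (5 / 4) := mul_le_mul_of_nonneg_left hexp (by positivity)
    _ = 5 / 4 * Real.log J ^ A := by ring

theorem cf_dya_bad (c : ℝ) (hc : 0 < c) (J n : ℕ) (hJ : 2 ≤ J) (h1 : J < n) (h2 : n ≤ 2 * J) :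
    c / 4 * (n : ℝ) ^ 2 / (Real.log (n + 1)) ^ 2 ≤ c * (J : ℝ) ^ 2 / Real.log J ^ 2 := by
  have hJ' : (2 : ℝ) ≤ J := by exact_mod_cast hJ
  have h1' : (J : ℝ) < n := by exact_mod_cast h1
  have h2' : (n : ℝ) ≤ 2 * J := by exact_mod_cast h2
  have hL : 0 < Real.log J := Real.log_pos (by linarith)
  have hL2 : Real.log J ≤ Real.log (n + 1) := Real.log_le_log (by linarith) (by linarith)
  have hn2 : (n : ℝ) ^ 2 ≤ 4 * (J : ℝ) ^ 2 := by nlinarith
  apply div_le_div₀
  · positivity
  · nlinarith
  · positivity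
  · exact pow_le_pow_left₀ hL.le hL2 2

open Classical in
theorem p_dya : S_dya := by
  rintro ⟨c, hc, H⟩
  refine ⟨c / 4, by positivity, fun A => ?_⟩
  obtain ⟨C, J0, hC⟩ := H A
  set F : ℕ → ℕ := fun N => ((Icc 1 N).filter (fun n : ℕ =>
    ((chenSet n).ncard : ℝ) < c / 4 * (n : ℝ) ^ 2 / (Real.log (n + 1)) ^ 2)).card with hF
  set N0 : ℕ := 2 * (J0 + ⌈Real.exp (4 * A + 1)⌉₊ + 5) with hN0
  set C' : ℝ := 3 * max C 0 + (Real.log N0) ^ A with hC'
  have hN0log : 0 ≤ Real.log (N0 : ℝ) := Real.log_natCast_nonneg N0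
  have hmax0 : 0 ≤ max C 0 := le_max_right _ _
  have hmaxC : C ≤ max C 0 := le_max_left _ _
  have hlogA : 0 ≤ (Real.log (N0 : ℝ)) ^ A := by positivity
  refine ⟨C', fun N hN => ?_⟩
  show ((F N : ℕ) : ℝ) ≤ C' * (N : ℝ) / (Real.log N) ^ A
  induction N using Nat.strong_induction_on with
  | _ N ih =>
    have hNr : (2 : ℝ) ≤ N := by exact_mod_cast hN
    have hlogN : 0 < Real.log N := Real.log_pos (by linarith)
    by_cases hlt : N < N0
    · have h1 : ((F N : ℕ) : ℝ) ≤ N := by
        have : F N ≤ N := by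
          calc F N ≤ (Icc 1 N).card := Finset.card_filter_le _ _
            _ = N := by simp
        exact_mod_cast this
      have h2 : (Real.log N) ^ A ≤ (Real.log N0) ^ A := by
        apply pow_le_pow_left₀ hlogN.le
        apply Real.log_le_log (by linarith)
        exact_mod_cast hlt.le
      rw [le_div_iff₀ (by positivity)]
      have h3 : (Real.log N) ^ A ≤ C' := by
        rw [hC']
        linarith
      calc ((F N : ℕ) : ℝ) * (Real.log N) ^ A ≤ N * (Real.log N) ^ A :=
            mul_le_mul_of_nonneg_right h1 (by positivity)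
        _ ≤ N * C' := mul_le_mul_of_nonneg_left h3 (by positivity)
        _ = C' * N := by ring
    · push Not at hlt
      obtain ⟨J, hJ⟩ : ∃ J, J = (N + 1) / 2 := ⟨_, rfl⟩
      have hJ1 : J < N := by omega
      have hJ2 : N ≤ 2 * J := by omega
      have hJ3 : J0 ≤ J := by omega
      have hJ4 : 5 ≤ J := by omega
      have hJ5 : ⌈Real.exp (4 * A + 1)⌉₊ ≤ J := by omega
      have hJ6 : 5 * J ≤ 3 * N := by omega
      have hJe : Real.exp (4 * A + 1) ≤ J := by
        calc Real.exp (4 * A + 1) ≤ (⌈Real.exp (4 * A + 1)⌉₊ : ℝ) := Nat.le_ceil _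
          _ ≤ J := by exact_mod_cast hJ5
      have hpow := cf_dya_pow A J N hJe (by omega) hJ2
      have hih := ih J hJ1 (by omega)
      have hblock := hC J hJ3
      have hJr : (5 : ℝ) ≤ J := by exact_mod_cast hJ4
      have hJ6r : (5 : ℝ) * J ≤ 3 * N := by exact_mod_cast hJ6
      have hlogJ : 0 < Real.log J := Real.log_pos (by linarith)
      -- split
      have hsplit : F N ≤ F J + ((Ioc J (2 * J)).filter (fun j : ℕ =>
          ((chenSet j).ncard : ℝ) < c * (J : ℝ) ^ 2 / Real.log J ^ 2)).card := by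
        rw [hF]
        refine le_trans (Finset.card_le_card ?_) (Finset.card_union_le _ _)
        intro n hn
        rw [Finset.mem_filter, Finset.mem_Icc] at hn
        rw [Finset.mem_union, Finset.mem_filter, Finset.mem_filter, Finset.mem_Icc,
          Finset.mem_Ioc]
        by_cases hnJ : n ≤ J
        · left
          exact ⟨⟨hn.1.1, hnJ⟩, hn.2⟩
        · right
          push Not at hnJ
          refine ⟨⟨hnJ, by omega⟩, lt_of_lt_of_le hn.2 ?_⟩
          exact cf_dya_bad c hc J n (by omega) hnJ (by omega)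
      have hsplit' : ((F N : ℕ) : ℝ) ≤ (F J : ℕ) + (((Ioc J (2 * J)).filter (fun j : ℕ =>
          ((chenSet j).ncard : ℝ) < c * (J : ℝ) ^ 2 / Real.log J ^ 2)).card : ℝ) := by
        exact_mod_cast hsplit
      have h5 : ((F N : ℕ) : ℝ) ≤ (C' + max C 0) * J / (Real.log J) ^ A := by
        have h6 : C * (J : ℝ) / Real.log J ^ A ≤ max C 0 * J / Real.log J ^ A := by
          apply div_le_div_of_nonneg_right _ (by positivity)
          exact mul_le_mul_of_nonneg_right hmaxC (by positivity)
        have h7 : (C' + max C 0) * J / (Real.log J) ^ A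
            = C' * J / (Real.log J) ^ A + max C 0 * J / (Real.log J) ^ A := by ring
        rw [h7]
        linarith
      refine h5.trans ?_
      rw [div_le_div_iff₀ (by positivity) (by positivity)]
      have hCC : 0 ≤ C' + max C 0 := by
        rw [hC']
        positivity
      have hCC2 : C' + max C 0 ≤ 4 / 3 * C' := by
        rw [hC']
        linarith
      have hC'0 : 0 ≤ C' := by
        rw [hC']
        positivity
      calc (C' + max C 0) * J * Real.log N ^ A
          ≤ (C' + max C 0) * J * (5 / 4 * Real.log J ^ A) :=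
            mul_le_mul_of_nonneg_left hpow (by positivity)
        _ ≤ (4 / 3 * C') * J * (5 / 4 * Real.log J ^ A) := by
            apply mul_le_mul_of_nonneg_right _ (by positivity)
            exact mul_le_mul_of_nonneg_right hCC2 (by positivity)
        _ = (C' * Real.log J ^ A) * (5 * J / 3) := by ring
        _ ≤ (C' * Real.log J ^ A) * N := by
            apply mul_le_mul_of_nonneg_left _ (by positivity)
            linarith
        _ = C' * N * Real.log J ^ A := by ring

end Pool.Agent.CH.F
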