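import Pool.Agent.Lib.MP_d610d0_nt.CH.F.Stm

set_option autoImplicit false

/-!
[CF lo] Lower bound (MP_d610d0_nt).
-/

namespace Pool.Agent.CH.F

open Finset
open scoped ArithmeticFunction.Omega
open Pool.Agent.MP89da58 (tri)

private theorem cf_lo_VV (z : ℝ) : 0 ≤ VV z := by
  unfold VV
  refine Finset.prod_nonneg fun p hp => ?_
  have h := (Finset.mem_filter.1 hp).2.2
  have h1 : (3 : ℝ) ≤ p := by exact_mod_cast h
  have h2 : 1 / ((p : ℝ) - 1) ≤ 1 := by
    rw [div_le_one (by linarith)]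
    linarith
  linarith

theorem p_lo (hwin : S_win) (hsw : S_sw) : S_lo := by
  refine ⟨5, fun J hJ cp cm hSW j hj hG => ?_⟩
  obtain ⟨h1, h2, -, -⟩ := hwin J hJ j hj
  have hthP : ∀ n, 0 ≤ thP n := by
    intro n
    unfold thP
    split_ifs
    · exact Real.log_natCast_nonneg n
    · exact le_rfl
  have hterm : ∑ n ∈ Icc 1 (27 * J ^ 3), thP n * wJ J j n * dsum cm (n + 2) ≤ SS J j := by
    unfold SS
    refine Finset.sum_le_sum fun n hn => ?_
    by_cases h0 : thP n * wJ J j n = 0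
    · rw [h0, zero_mul, zero_mul]
    · have hnp : n.Prime := by
        by_contra hc
        apply h0
        unfold thP
        rw [if_neg hc, zero_mul]
      have hw : wJ J j n ≠ 0 := right_ne_zero_of_mul h0
      have hn1 : 1 ≤ n := (Finset.mem_Icc.1 hn).1
      obtain ⟨-, -, h3, -⟩ := h2 n hn1 hw
      have h4 : 5 ^ 3 ≤ J ^ 3 := Nat.pow_le_pow_left hJ 3
      have h5 : n ≠ 2 := by
        intro h
        rw [h] at h3
        omega
      have h6 : Odd n := hnp.odd_of_ne_two h5
      have h7 : Odd (n + 2) := by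
        obtain ⟨a, ha⟩ := h6
        exact ⟨a + 1, by omega⟩
      exact mul_le_mul_of_nonneg_left (hSW.lo (n + 2) h7) (mul_nonneg (hthP n) (h1 n).1)
  have hsum := (hsw J j thP cm (by omega) hSW.wm).1
  have hJ0 : (0 : ℝ) < J := by
    have : 0 < J := by omega
    exact_mod_cast this
  have hmu : 0 ≤ mu J j := by
    unfold mu
    positivity
  have hV := cf_lo_VV (zJ J)
  have hprod : 0.62 * VV (zJ J) * (0.999 * mu J j) ≤
      (∑ q ∈ Icc 1 J, cm q / (Nat.totient q : ℝ)) *
        ∑ n ∈ Icc 1 (27 * J ^ 3), thP n * wJ J j n := by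
    refine mul_le_mul hSW.mm hG.g3 ?_ ?_
    · exact mul_nonneg (by norm_num) hmu
    · refine le_trans ?_ hSW.mm
      exact mul_nonneg (by norm_num) hV
  have hg1 := (abs_le.1 hG.g1).1
  have hVm : 0 ≤ VV (zJ J) * mu J j := mul_nonneg hV hmu
  rw [hsum] at hterm
  nlinarith

end Pool.Agent.CH.F
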