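import Pool.Agent.Lib.MP_d610d0_nt.CH.F.Stm

/-!
[CF sel] Almost all windows are good.
-/

set_option autoImplicit false

namespace Pool.Agent.CH.F

open Finset
open scoped ArithmeticFunction.Omega
open Pool.Agent.MP89da58 (tri)

/-- Chebyshev -/
theorem cf_sel_mk (s : Finset ℕ) (f : ℕ → ℝ) (t : ℝ) (ht : 0 ≤ t) :
    ((s.filter fun j => t < |f j|).card : ℝ) * t ^ 2 ≤ ∑ j ∈ s, f j ^ 2 := by
  calc ((s.filter fun j => t < |f j|).card : ℝ) * t ^ 2
      = ∑ j ∈ s.filter (fun j => t < |f j|), t ^ 2 := by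
        rw [sum_const, nsmul_eq_mul]
    _ ≤ ∑ j ∈ s.filter (fun j => t < |f j|), f j ^ 2 := by
        apply sum_le_sum
        intro j hj
        rw [← sq_abs (f j)]
        exact pow_le_pow_left₀ ht (le_of_lt (mem_filter.1 hj).2) 2
    _ ≤ ∑ j ∈ s, f j ^ 2 :=
        sum_le_sum_of_subset_of_nonneg (filter_subset _ _) fun j _ _ => sq_nonneg _

theorem cf_sel_big (A : ℕ) : ∃ J0 : ℕ, ∀ J : ℕ, J0 ≤ J →
    54 * (J : ℝ) ^ (3 / 4 : ℝ) ≤ J / Real.log J ^ A := by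
  have h := (isLittleO_log_rpow_rpow_atTop (A : ℝ) (show (0 : ℝ) < 1 / 4 by norm_num)).bound
    (show (0 : ℝ) < 1 / 54 by norm_num)
  obtain ⟨J1, hJ1⟩ := Filter.eventually_atTop.1 (tendsto_natCast_atTop_atTop.eventually h)
  refine ⟨max 3 J1, fun J hJ => ?_⟩
  have h3 : 3 ≤ J := le_trans (le_max_left _ _) hJ
  have hJR : (3 : ℝ) ≤ J := by exact_mod_cast h3
  have hL : 0 < Real.log J := Real.log_pos (by linarith)
  have h1 := hJ1 J (le_trans (le_max_right _ _) hJ)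
  rw [Real.norm_of_nonneg (by positivity), Real.norm_of_nonneg (by positivity),
    Real.rpow_natCast] at h1
  rw [le_div_iff₀ (by positivity)]
  have h2 : (J : ℝ) ^ (3 / 4 : ℝ) * (J : ℝ) ^ (1 / 4 : ℝ) = J := by
    rw [← Real.rpow_add (by linarith)]
    norm_num
  calc 54 * (J : ℝ) ^ (3 / 4 : ℝ) * Real.log J ^ A
      ≤ 54 * (J : ℝ) ^ (3 / 4 : ℝ) * (1 / 54 * (J : ℝ) ^ (1 / 4 : ℝ)) := by gcongr
    _ = J := by linarith

/-- the bad set of a mean square estimate -/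
theorem cf_sel_ms (J A : ℕ) (hJ : 16 ≤ J) (f : ℕ → ℝ) (C : ℝ)
    (h : ∑ j ∈ Ioc J (2 * J), f j ^ 2 ≤ C * (J : ℝ) ^ 5 / Real.log J ^ (A + 6)) :
    (((Ioc J (2 * J)).filter fun j => (J : ℝ) ^ 2 / Real.log J ^ 3 < |f j|).card : ℝ) ≤
      C * J / Real.log J ^ A := by
  have hJR : (16 : ℝ) ≤ J := by exact_mod_cast hJ
  have hJ0 : (0 : ℝ) < J := by linarith
  have hL : 0 < Real.log J := Real.log_pos (by linarith)
  have h1 := cf_sel_mk (Ioc J (2 * J)) f ((J : ℝ) ^ 2 / Real.log J ^ 3) (by positivity)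
  have h2 := h1.trans h
  have h3 : C * (J : ℝ) ^ 5 / Real.log J ^ (A + 6) =
      C * J / Real.log J ^ A * ((J : ℝ) ^ 2 / Real.log J ^ 3) ^ 2 := by
    rw [pow_add]
    field_simp
  rw [h3] at h2
  exact le_of_mul_le_mul_right h2 (by positivity)

theorem p_sel (hsq : S_sq) : S_sel := by
  intro hD1 hD2 hM1 hM2 A
  classical
  obtain ⟨C1, h1⟩ := hD1 (A + 6)
  obtain ⟨C2, h2⟩ := hD2 (A + 6)
  obtain ⟨C3, h3⟩ := hM1 A
  obtain ⟨C4, h4⟩ := hM2 A
  obtain ⟨J5, h5⟩ := cf_sel_big A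
  refine ⟨C1 + C2 + C3 + C4 + 1, max 16 J5, fun J hJ cp cm hW => ?_⟩
  have hJ16 : 16 ≤ J := le_trans (le_max_left _ _) hJ
  have hJ5 : J5 ≤ J := le_trans (le_max_right _ _) hJ
  have e1 := cf_sel_ms J A hJ16 (fun j => ∑ q ∈ Icc 1 J, cm q * EE J thP (-2) j q) C1
    (h1 J (by omega) cm hW.wm)
  have e2 := cf_sel_ms J A hJ16 (fun j => ∑ q ∈ Icc 1 J, cp q * EE J (RR (zJ J)) 2 j q) C2
    (h2 J (by omega) cp hW.wp)
  have e3 := h3 J (by omega)
  have e4 := h4 J (by omega)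
  have e5 := (hsq J hJ16).trans (h5 J hJ5)
  have hsub : (Ioc J (2 * J)).filter (fun j => ¬ Good J cp cm j) ⊆
      ((Ioc J (2 * J)).filter fun j => (J : ℝ) ^ 2 / Real.log J ^ 3 <
        |∑ q ∈ Icc 1 J, cm q * EE J thP (-2) j q|) ∪
      (((Ioc J (2 * J)).filter fun j => (J : ℝ) ^ 2 / Real.log J ^ 3 <
        |∑ q ∈ Icc 1 J, cp q * EE J (RR (zJ J)) 2 j q|) ∪
      (((Ioc J (2 * J)).filter (fun j : ℕ => ∑ n ∈ Icc 1 (27 * J ^ 3), thP n * wJ J j n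
        < 0.999 * (((j : ℝ) + 1 / 2) ^ 3 / (2 * J)))) ∪
      (((Ioc J (2 * J)).filter (fun j : ℕ =>
        0.40 * (((j : ℝ) + 1 / 2) ^ 3 / (2 * J)) / (3 * Real.log J)
          < ∑ n ∈ Icc 1 (27 * J ^ 3), RR (zJ J) n * wJ J j n)) ∪
      ((Ioc J (2 * J)).filter (fun j => (J : ℝ) ^ (15 / 8 : ℝ) < sqn J j))))) := by
    intro j hj
    obtain ⟨hj1, hj2⟩ := mem_filter.1 hj
    simp only [mem_union, mem_filter, hj1, true_and]
    by_contra hc
    push Not at hc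
    obtain ⟨a1, a2, a3, a4, a5⟩ := hc
    exact hj2 ⟨a1, a2, a3, a4, a5⟩
  have hc := (card_le_card hsub).trans (card_union_le _ _)
  have hc2 := hc.trans (Nat.add_le_add_left (card_union_le _ _) _)
  have hc3 := hc2.trans (Nat.add_le_add_left (Nat.add_le_add_left (card_union_le _ _) _) _)
  have hc4 := hc3.trans (Nat.add_le_add_left (Nat.add_le_add_left
    (Nat.add_le_add_left (card_union_le _ _) _) _) _)
  have hc5 : (((Ioc J (2 * J)).filter (fun j => ¬ Good J cp cm j)).card : ℝ) ≤ _ :=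
    Nat.cast_le.2 hc4
  refine hc5.trans ?_
  rw [Nat.cast_add, Nat.cast_add, Nat.cast_add, Nat.cast_add]
  have e6 : (C1 + C2 + C3 + C4 + 1) * J / Real.log J ^ A = C1 * J / Real.log J ^ A +
      (C2 * J / Real.log J ^ A + (C3 * J / Real.log J ^ A + (C4 * J / Real.log J ^ A +
        J / Real.log J ^ A))) := by ring
  rw [e6]
  exact add_le_add e1 (add_le_add e2 (add_le_add e3 (add_le_add e4 e5)))

end Pool.Agent.CH.F
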