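import Pool.Agent.Lib.MP_d610d0_nt.CH.F.Stm

set_option autoImplicit false

/-! The piece `sq`: numbers divisible by the square of a large prime. -/

namespace Pool.Agent.CH.F

open Finset
open scoped ArithmeticFunction.Omega
open Pool.Agent.MP89da58 (tri)

open Classical in
/-- the numbers up to `X` divisible by the square of a prime `≥ z` -/
private noncomputable def cf_sq_U (z : ℝ) (X : ℕ) : Finset ℕ :=
  (Ioc 0 X).filter (fun n : ℕ => ∃ q : ℕ, q.Prime ∧ z ≤ q ∧ q ^ 2 ∣ n)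

open Classical in
private theorem cf_sq_U_card (z : ℝ) (X : ℕ) (hz : 1 ≤ z) :
    ((cf_sq_U z X).card : ℝ) ≤ X * (2 / z) := by
  have hq0 : 1 ≤ ⌈z⌉₊ := Nat.one_le_iff_ne_zero.2 (by
    intro h
    rw [Nat.ceil_eq_zero] at h
    linarith)
  have hsub : cf_sq_U z X ⊆ (Ioo (⌈z⌉₊ - 1) (X + 1)).biUnion
      (fun q => (Ioc 0 X).filter (fun n => q ^ 2 ∣ n)) := by
    intro n hn
    unfold cf_sq_U at hn
    rw [mem_filter, mem_Ioc] at hn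
    obtain ⟨⟨h1, h2⟩, q, hq, hzq, hqn⟩ := hn
    rw [mem_biUnion]
    refine ⟨q, ?_, ?_⟩
    · rw [mem_Ioo]
      have h3 : ⌈z⌉₊ ≤ q := Nat.ceil_le.2 hzq
      have h4 : q ^ 2 ≤ n := Nat.le_of_dvd h1 hqn
      have h5 : q ≤ q ^ 2 := Nat.le_self_pow (by norm_num) q
      omega
    · rw [mem_filter, mem_Ioc]
      exact ⟨⟨h1, h2⟩, hqn⟩
  have h1 : (cf_sq_U z X).card ≤ ∑ q ∈ Ioo (⌈z⌉₊ - 1) (X + 1), X / q ^ 2 := by
    refine (card_le_card hsub).trans (card_biUnion_le.trans ?_)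
    apply sum_le_sum
    intro q _
    exact (Nat.Ioc_filter_dvd_card_eq_div X (q ^ 2)).le
  calc ((cf_sq_U z X).card : ℝ) ≤ ((∑ q ∈ Ioo (⌈z⌉₊ - 1) (X + 1), X / q ^ 2 : ℕ) : ℝ) := by
        exact_mod_cast h1
    _ ≤ ∑ q ∈ Ioo (⌈z⌉₊ - 1) (X + 1), (X : ℝ) * ((q : ℝ) ^ 2)⁻¹ := by
        push_cast
        apply sum_le_sum
        intro q _
        refine (Nat.cast_div_le).trans ?_
        push_cast
        rw [div_eq_mul_inv]
    _ = X * ∑ q ∈ Ioo (⌈z⌉₊ - 1) (X + 1), ((q : ℝ) ^ 2)⁻¹ := by rw [mul_sum]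
    _ ≤ X * (2 / z) := by
        apply mul_le_mul_of_nonneg_left _ (Nat.cast_nonneg _)
        refine (sum_Ioo_inv_sq_le (α := ℝ) _ _).trans ?_
        have h2 : ((⌈z⌉₊ - 1 : ℕ) : ℝ) + 1 = (⌈z⌉₊ : ℝ) := by
          rw [Nat.cast_sub hq0]; push_cast; ring
        rw [h2]
        exact div_le_div_of_nonneg_left (by norm_num) (by linarith) (Nat.le_ceil z)

open Classical in
private theorem cf_sq_sum (J : ℕ) (_hJ : 1 ≤ J) (B : Finset ℕ) (hB : B ⊆ Ioc J (2 * J)) :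
    ∑ j ∈ B, sqn J j ≤ (cf_sq_U (zJ J) (27 * J ^ 3)).card := by
  unfold sqn
  rw [← card_biUnion]
  · apply card_le_card
    intro n hn
    rw [mem_biUnion] at hn
    obtain ⟨j, hj, hn⟩ := hn
    rw [mem_filter, mem_Ioo] at hn
    have hj' := mem_Ioc.1 (hB hj)
    unfold cf_sq_U
    rw [mem_filter, mem_Ioc]
    refine ⟨⟨by omega, ?_⟩, hn.2⟩
    have h1 : (j + 1) ^ 3 ≤ (3 * J) ^ 3 := Nat.pow_le_pow_left (by omega) 3
    have h2 : (3 * J) ^ 3 = 27 * J ^ 3 := by ring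
    omega
  · intro i _ j _ hij
    rw [Function.onFun, Finset.disjoint_left]
    intro n hn hn'
    rw [mem_filter, mem_Ioo] at hn hn'
    rcases Nat.lt_or_gt_of_ne hij with h | h
    · have h1 : (i + 1) ^ 3 ≤ j ^ 3 := Nat.pow_le_pow_left (by omega) 3
      omega
    · have h1 : (j + 1) ^ 3 ≤ i ^ 3 := Nat.pow_le_pow_left (by omega) 3
      omega

theorem p_sq : S_sq := by
  intro J hJ
  set B := (Ioc J (2 * J)).filter (fun j => (J : ℝ) ^ (15 / 8 : ℝ) < sqn J j) with hBdef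
  have hJ0 : (0 : ℝ) < J := by
    have : 0 < J := by omega
    exact_mod_cast this
  have hJ1 : (1 : ℝ) ≤ J := by
    have : 1 ≤ J := by omega
    exact_mod_cast this
  have hz : (J : ℝ) ^ (3 / 8 : ℝ) ≤ zJ J := by
    unfold zJ
    exact Real.rpow_le_rpow hJ0.le (by linarith) (by norm_num)
  have hz0 : (1 : ℝ) ≤ (J : ℝ) ^ (3 / 8 : ℝ) := Real.one_le_rpow hJ1 (by norm_num)
  have hz1 : 1 ≤ zJ J := hz0.trans hz
  have hp0 : 0 < (J : ℝ) ^ (15 / 8 : ℝ) := Real.rpow_pos_of_pos hJ0 _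
  have h1 : (B.card : ℝ) * (J : ℝ) ^ (15 / 8 : ℝ) ≤ ∑ j ∈ B, (sqn J j : ℝ) := by
    rw [← nsmul_eq_mul]
    apply card_nsmul_le_sum
    intro j hj
    exact (mem_filter.1 hj).2.le
  have h2 : ∑ j ∈ B, (sqn J j : ℝ) ≤ ((27 * J ^ 3 : ℕ) : ℝ) * (2 / zJ J) := by
    have h3 := cf_sq_sum J (by omega) B (filter_subset _ _)
    have h4 : ∑ j ∈ B, (sqn J j : ℝ) ≤ ((cf_sq_U (zJ J) (27 * J ^ 3)).card : ℝ) := by
      exact_mod_cast h3
    exact h4.trans (cf_sq_U_card _ _ hz1)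
  have h3 : (27 * (J : ℝ) ^ 3) * (2 / zJ J) ≤ 54 * (J : ℝ) ^ 3 / (J : ℝ) ^ (3 / 8 : ℝ) := by
    rw [show (27 * (J : ℝ) ^ 3) * (2 / zJ J) = 54 * (J : ℝ) ^ 3 / zJ J by ring]
    exact div_le_div_of_nonneg_left (by positivity) (by linarith) hz
  have h4 : (J : ℝ) ^ 3 = (J : ℝ) ^ (3 / 4 : ℝ) * (J : ℝ) ^ (15 / 8 : ℝ) *
      (J : ℝ) ^ (3 / 8 : ℝ) := by
    rw [← Real.rpow_add hJ0, ← Real.rpow_add hJ0, ← Real.rpow_natCast]
    norm_num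
  have h5 : 54 * (J : ℝ) ^ 3 / (J : ℝ) ^ (3 / 8 : ℝ) =
      54 * (J : ℝ) ^ (3 / 4 : ℝ) * (J : ℝ) ^ (15 / 8 : ℝ) := by
    rw [h4]
    have : (J : ℝ) ^ (3 / 8 : ℝ) ≠ 0 := by positivity
    field_simp
  push_cast at h2
  have h6 : (B.card : ℝ) * (J : ℝ) ^ (15 / 8 : ℝ) ≤
      54 * (J : ℝ) ^ (3 / 4 : ℝ) * (J : ℝ) ^ (15 / 8 : ℝ) := by
    rw [← h5]
    exact h1.trans (h2.trans h3)
  exact le_of_mul_le_mul_right h6 hp0

end Pool.Agent.CH.F
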