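import Pool.Agent.Lib.MP_d610d0_nt.CH.F.Stm

set_option autoImplicit false

namespace Pool.Agent.CH.F

open Finset
open scoped ArithmeticFunction.Omega
open Pool.Agent.MP89da58 (tri)

theorem p_V : S_V := by
  obtain ⟨a0, ha0, hM⟩ := S.p_mer 1 one_pos
  obtain ⟨t1, t2, t3, t4, t5⟩ := S.p_tel (a0 + 1) (by omega)
  have hmer := hM (a0 + 1) (by omega)
  set c' : ℝ := ∏ p ∈ S.OP a0, (1 - S.gd p) with hc'
  have hc'0 : 0 < c' := by
    apply prod_pos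
    intro p hp
    simp only [S.OP, mem_filter, mem_range] at hp
    have h3 : (3 : ℝ) ≤ p := by exact_mod_cast hp.2.2
    have : S.gd p ≤ 1 / 2 := by
      unfold S.gd
      apply div_le_div_of_nonneg_left (by norm_num) (by norm_num) (by linarith)
    linarith
  have hla : 0 < Real.log ((a0 + 1 : ℕ) : ℝ) := Real.log_pos (by
    have : (4 : ℝ) ≤ ((a0 + 1 : ℕ) : ℝ) := by exact_mod_cast (by omega : 4 ≤ a0 + 1)
    linarith)
  refine ⟨c' * Real.log ((a0 + 1 : ℕ) : ℝ) / 2, (a0 + 1) ^ 3, by positivity, fun J hJ => ?_⟩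
  have ha4 : (4 : ℝ) ≤ ((a0 + 1 : ℕ) : ℝ) := by exact_mod_cast (by omega : 4 ≤ a0 + 1)
  have hJr : (((a0 + 1 : ℕ) : ℝ)) ^ 3 ≤ (J : ℝ) := by exact_mod_cast hJ
  have hJ64 : (64 : ℝ) ≤ J := by nlinarith [sq_nonneg (((a0 + 1 : ℕ) : ℝ) - 4), mul_nonneg (show (0:ℝ) ≤ ((a0 + 1 : ℕ) : ℝ) - 4 by linarith) (sq_nonneg (((a0 + 1 : ℕ) : ℝ)))]
  have hz : ((a0 + 1 : ℕ) : ℝ) ≤ zJ J := by
    unfold zJ
    have h1 : ((a0 + 1 : ℕ) : ℝ) = ((((a0 + 1 : ℕ) : ℝ)) ^ 3) ^ (1 / 3 : ℝ) := by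
      rw [← Real.rpow_natCast, ← Real.rpow_mul (by positivity)]; norm_num
    calc ((a0 + 1 : ℕ) : ℝ) = ((((a0 + 1 : ℕ) : ℝ)) ^ 3) ^ (1 / 3 : ℝ) := h1
      _ ≤ (3 * (J : ℝ)) ^ (1 / 3 : ℝ) := Real.rpow_le_rpow (by positivity) (by linarith) (by norm_num)
      _ ≤ (3 * (J : ℝ)) ^ (3 / 8 : ℝ) := Real.rpow_le_rpow_of_exponent_le (by linarith) (by norm_num)
  have hlz : Real.log (zJ J) ≤ Real.log J := by
    unfold zJ
    rw [Real.log_rpow (by linarith)]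
    have h1 : Real.log (3 * (J : ℝ)) ≤ 2 * Real.log J := by
      rw [← Real.log_rpow (by linarith)]
      apply Real.log_le_log (by linarith)
      rw [show (2 : ℝ) = ((2 : ℕ) : ℝ) by norm_num, Real.rpow_natCast]
      nlinarith
    have h2 : 0 < Real.log J := Real.log_pos (by linarith)
    linarith
  have hlz0 : 0 < Real.log (zJ J) := Real.log_pos (by linarith)
  have h5 := t5 a0 (zJ J) (by omega) (by push_cast at hz; exact hz)
  have h6 := hmer (a0 + 1) le_rfl (zJ J) hz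
  rw [h5]
  have hV := (t1 ⌈zJ J⌉₊).1
  rw [div_le_iff₀ (lt_of_lt_of_le hlz0 hlz)]
  have h7 : Real.log ((a0 + 1 : ℕ) : ℝ) ≤ 2 * (S.V (a0 + 1) ⌈zJ J⌉₊ * Real.log J) := by
    calc Real.log ((a0 + 1 : ℕ) : ℝ) ≤ (1 + 1) * S.V (a0 + 1) ⌈zJ J⌉₊ * Real.log (zJ J) := h6
      _ ≤ (1 + 1) * S.V (a0 + 1) ⌈zJ J⌉₊ * Real.log J :=
        mul_le_mul_of_nonneg_left hlz (by positivity)
      _ = _ := by ring
  have := mul_le_mul_of_nonneg_left h7 hc'0.le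
  nlinarith

end Pool.Agent.CH.F
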